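import Pool.Agent.H87.SH.Targets
import Pool.Agent.H87.SN.CSF

/-! Row HLF of the board hlf (MP_2697e3_an): the theorem from the other rows. -/

namespace Pool.Agent.H87.SH

open MeasureTheory Metric Set Filter Topology Pool.Agent.H87.SN
open scoped ContDiff RealInnerProductSpace ENNReal

theorem en_nonneg {n m : ℕ} (u : E n → E m) (x : E n) : 0 ≤ en u x := by
  unfold en nsq; positivity

theorem en_cont {n m : ℕ} {u : E n → E m} {U : Set (E n)} (hU : IsOpen U)
    (hu : ContDiffOn ℝ ∞ u U) : ContinuousOn (en u) U := by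
  have h1 : ContDiffOn ℝ ∞ (fderiv ℝ u) U := hu.fderiv_of_isOpen hU (by norm_num)
  have h3 : ContinuousOn (fderiv ℝ u) U := h1.continuousOn
  unfold en nsq
  exact continuousOn_finsetSum _ fun i _ => ((h3.clm_apply continuousOn_const).norm.pow 2)

theorem HM.mono {n m : ℕ} {L : ℝ} {U V : Set (E n)} {u : E n → E m} (h : HM n m L U u)
    (hVU : V ⊆ U) : HM n m L V u :=
  ⟨h.smooth.mono hVU, fun x hx => h.orth x (hVU hx), fun x hx => h.lapb x (hVU hx)⟩

theorem meas_ind {n : ℕ} {U : Set (E n)} {f : E n → ℝ} (hU : MeasurableSet U)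
    (hf : ContinuousOn f U) : Measurable (U.indicator f) := by
  classical
  rw [← piecewise_eq_indicator]
  exact ContinuousOn.measurable_piecewise hf continuousOn_const hU

theorem pf_HLF (hREG : T_REG) (hLHE : T_LHE) (hFUB : T_FUB) (hDIS : T_DIS) (hALG : T_ALG)
    (hGEO : SN.T_GEO) : T_HLF := by
  intro m N A hN hA d
  obtain ⟨CA, hCA, hgeo⟩ := hGEO m N A hN hA
  obtain ⟨C1, hC1, h1⟩ := hLHE (d + 2) m CA hCA
  obtain ⟨C2, hC2, h2⟩ := hFUB (d + 2) (4 * C1) (by positivity)
  obtain ⟨C3, hC3, h3⟩ := hDIS (d + 2) m CA (by omega) hCA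
  obtain ⟨K, hK, h4⟩ := hALG (d + 2) (max C2 C3) (le_max_of_le_left hC2)
  refine ⟨K, hK, fun u hu huN hlap a I g ha hI hen hg hg1 hgI => ?_⟩
  obtain ⟨horth, hlapb, -⟩ := hgeo d (ball 0 2) u isOpen_ball hu huN hlap
  have hHM : HM (d + 2) m CA (ball 0 2) u := ⟨hu, horth, hlapb⟩
  have hec : ContinuousOn (en u) (ball (0 : E (d + 2)) 2) := en_cont isOpen_ball hu
  have hhc : ContinuousOn (hsq u) (ball (0 : E (d + 2)) 2) := hsq_cont isOpen_ball hu
  obtain ⟨R, hRL, hR1, hRpos, hRe, hRmax⟩ := hREG (d + 2) (en u) hec (en_nonneg u)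
  set B2 : Set (E (d + 2)) := ball 0 2 with hB2
  have hB2m : MeasurableSet B2 := measurableSet_ball
  set H : E (d + 2) → ℝ := B2.indicator (hsq u) with hH
  set e : E (d + 2) → ℝ := B2.indicator (en u) with he
  have hHm : Measurable H := by
    rw [hH]
    exact meas_ind hB2m hhc
  have hem : Measurable e := by
    rw [he]
    exact meas_ind hB2m hec
  have hHeq : ∀ x ∈ B2, H x = hsq u x := fun x hx => by rw [hH, indicator_of_mem hx]
  have heeq : ∀ x ∈ B2, e x = en u x := fun x hx => by rw [he, indicator_of_mem hx]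
  have hloc : ∀ x ∈ ball (0 : E (d + 2)) (5 / 4),
      ∫⁻ y in ball x (R x / 4), ENNReal.ofReal (H y) ≤
      ENNReal.ofReal (4 * C1 / R x ^ 2) * ∫⁻ y in ball x (R x / 2), ENNReal.ofReal (e y) := by
    intro x hx
    have hxB : x ∈ B2 := ball_subset_ball (by norm_num) hx
    have hRx := hRpos x hxB
    have hsub : ball x (R x / 2) ⊆ B2 := by
      intro y hy
      rw [hB2, mem_ball, dist_zero_right]
      rw [mem_ball, dist_zero_right] at hx
      rw [mem_ball, dist_eq_norm] at hy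
      have e1 : ‖y‖ ≤ ‖y - x‖ + ‖x‖ := by
        calc ‖y‖ = ‖(y - x) + x‖ := by congr 1; abel
          _ ≤ _ := norm_add_le _ _
      have := (hR1 x).2
      linarith
    have key := h1 u x (R x / 2) (by positivity) (hHM.mono hsub) (fun y hy => by
      have hy2 : y ∈ ball x (R x) := ball_subset_ball (by linarith) hy
      have q := hRe x y hy2
      have q2 := en_nonneg u y
      have : (R x / 2) ^ 2 ≤ R x ^ 2 := by nlinarith
      calc (R x / 2) ^ 2 * en u y ≤ R x ^ 2 * en u y := mul_le_mul_of_nonneg_right this q2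
        _ ≤ 1 := q)
    have e1 : ∫⁻ y in ball x (R x / 4), ENNReal.ofReal (H y) =
        ∫⁻ y in ball x (R x / 2 / 2), ENNReal.ofReal (hsq u y) := by
      rw [show R x / 2 / 2 = R x / 4 by ring]
      refine setLIntegral_congr_fun measurableSet_ball fun y hy => ?_
      show ENNReal.ofReal (H y) = ENNReal.ofReal (hsq u y)
      rw [hHeq y (hsub (ball_subset_ball (by linarith) hy))]
    have e2 : ∫⁻ y in ball x (R x / 2), ENNReal.ofReal (e y) =
        ∫⁻ y in ball x (R x / 2), ENNReal.ofReal (en u y) := by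
      refine setLIntegral_congr_fun measurableSet_ball fun y hy => ?_
      show ENNReal.ofReal (e y) = ENNReal.ofReal (en u y)
      rw [heeq y (hsub hy)]
    have e3 : C1 / (R x / 2) ^ 2 = 4 * C1 / R x ^ 2 := by
      field_simp; ring
    rw [e1, e2, ← e3]
    exact key
  have hfub := h2 R (fun x => ENNReal.ofReal (H x)) (fun x => ENNReal.ofReal (e x))
    hHm.ennreal_ofReal hem.ennreal_ofReal hRL hR1 hRpos hloc
  have hE : ∫⁻ x in ball (0 : E (d + 2)) (3 / 2), ENNReal.ofReal (e x) ≤ ENNReal.ofReal a := by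
    refine le_trans ?_ hen
    calc ∫⁻ x in ball (0 : E (d + 2)) (3 / 2), ENNReal.ofReal (e x)
        ≤ ∫⁻ x in B2, ENNReal.ofReal (e x) :=
          lintegral_mono_set (ball_subset_ball (by norm_num))
      _ = ∫⁻ x in B2, ENNReal.ofReal (en u x) := by
          refine setLIntegral_congr_fun hB2m fun x hx => ?_
          show ENNReal.ofReal (e x) = ENNReal.ofReal (en u x)
          rw [heeq x hx]
  set h : E (d + 2) → ℝ := fun x => Real.sqrt (H x) with hh
  have hH0 : ∀ x, 0 ≤ H x := fun x => by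
    rw [hH]
    exact indicator_nonneg (fun y _ => hsq_nonneg u y) x
  have hA1 : ∫⁻ x in ball (0 : E (d + 2)) 1, ENNReal.ofReal (R x ^ 2 * h x ^ 2) ≤
      ENNReal.ofReal (max C2 C3 * a) := by
    have e1 : ∀ x, ENNReal.ofReal (R x ^ 2 * h x ^ 2) =
        ENNReal.ofReal (R x ^ 2) * ENNReal.ofReal (H x) := fun x => by
      rw [hh]
      show ENNReal.ofReal (R x ^ 2 * Real.sqrt (H x) ^ 2) = _
      rw [Real.sq_sqrt (hH0 x), ENNReal.ofReal_mul (by positivity)]
    calc ∫⁻ x in ball (0 : E (d + 2)) 1, ENNReal.ofReal (R x ^ 2 * h x ^ 2)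
        = ∫⁻ x in ball (0 : E (d + 2)) 1, ENNReal.ofReal (R x ^ 2) * ENNReal.ofReal (H x) :=
          lintegral_congr fun x => e1 x
      _ ≤ ENNReal.ofReal C2 * ∫⁻ x in ball (0 : E (d + 2)) (3 / 2), ENNReal.ofReal (e x) := hfub
      _ ≤ ENNReal.ofReal C2 * ENNReal.ofReal a := by gcongr
      _ = ENNReal.ofReal (C2 * a) := by rw [ENNReal.ofReal_mul hC2]
      _ ≤ ENNReal.ofReal (max C2 C3 * a) := by
          apply ENNReal.ofReal_le_ofReal
          exact mul_le_mul_of_nonneg_right (le_max_left _ _) ha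
  have hA2 : ∀ ρ : ℝ, 0 < ρ → ρ ≤ 1 / 8 →
      volume {x : E (d + 2) | x ∈ ball (0 : E (d + 2)) 1 ∧ R x < ρ} ≤
        ENNReal.ofReal (max C2 C3 * a * ρ ^ 2) := by
    intro ρ hρ hρ1
    refine (h3 u R hHM hRL.continuous.measurable hRmax ρ hρ hρ1).trans ?_
    calc ENNReal.ofReal (C3 * ρ ^ 2) * ∫⁻ x in ball (0 : E (d + 2)) 2, ENNReal.ofReal (en u x)
        ≤ ENNReal.ofReal (C3 * ρ ^ 2) * ENNReal.ofReal a := by gcongr
      _ = ENNReal.ofReal (C3 * ρ ^ 2 * a) :=
          (ENNReal.ofReal_mul (p := C3 * ρ ^ 2) (by positivity)).symm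
      _ ≤ ENNReal.ofReal (max C2 C3 * a * ρ ^ 2) := by
          apply ENNReal.ofReal_le_ofReal
          have q : C3 ≤ max C2 C3 := le_max_right _ _
          have : C3 * ρ ^ 2 * a = C3 * (a * ρ ^ 2) := by ring
          rw [this, mul_assoc (max C2 C3)]
          exact mul_le_mul_of_nonneg_right q (by positivity)
  have fin := h4 R h a I g ha hI hRL.continuous.measurable hHm.sqrt
    (fun x => Real.sqrt_nonneg _) (fun x => (hR1 x).2)
    (fun x hx => hRpos x (ball_subset_ball (by norm_num) hx)) hA1 hA2 hg hg1 hgI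
  have e5 : ∫⁻ x in ball (0 : E (d + 2)) 1, ENNReal.ofReal (hessNorm u x * g (hessNorm u x)) =
      ∫⁻ x in ball (0 : E (d + 2)) 1, ENNReal.ofReal (h x * g (h x)) := by
    refine setLIntegral_congr_fun measurableSet_ball fun x hx => ?_
    have hx2 : x ∈ B2 := ball_subset_ball (by norm_num) hx
    show ENNReal.ofReal (hessNorm u x * g (hessNorm u x)) = ENNReal.ofReal (h x * g (h x))
    have : h x = hessNorm u x := by
      rw [hh]
      show Real.sqrt (H x) = _
      rw [hHeq x hx2, hess_eq isOpen_ball hu hx2]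
    rw [this]
  rw [e5]
  exact fin

end Pool.Agent.H87.SH
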