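import Pool.Agent.H87.SN.Targets

/-! Half of the logarithm in the Hessian bound for smooth harmonic maps (MP_2697e3_an): working
definitions and target statements of the rows of the board shl. -/

namespace Pool.Agent.H87.SH

open MeasureTheory Metric Set Filter Topology Pool.Agent.H87.SN
open scoped ContDiff RealInnerProductSpace ENNReal

noncomputable section

/-- The energy density. -/
def en {n m : ℕ} (u : E n → E m) (x : E n) : ℝ := nsq (fderiv ℝ u x)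

/-- What is used of the map on an open set. -/
structure HM (n m : ℕ) (L : ℝ) (U : Set (E n)) (u : E n → E m) : Prop where
  smooth : ContDiffOn ℝ ∞ u U
  orth : Orth U u
  lapb : ∀ x ∈ U, ‖lap u x‖ ≤ L * en u x

/-- The weight `(1 - |v|^2)_+^3`. -/
def phi {n : ℕ} (v : E n) : ℝ := (max 0 (1 - ‖v‖ ^ 2)) ^ 3

/-- The weight `(1 - |v|^2)_+^4 / 8`. -/
def psi {n : ℕ} (v : E n) : ℝ := (max 0 (1 - ‖v‖ ^ 2)) ^ 4 / 8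

/-- The weighted, scale invariant energy. -/
def theta {n m : ℕ} (u : E n → E m) (x : E n) (r : ℝ) : ℝ :=
  ∫ v : E n, r ^ 2 * (en u (x + r • v) * phi v)

/-- Facts on the weights. -/
def T_PHI : Prop := ∀ n : ℕ,
    ContDiff ℝ 1 (phi (n := n)) ∧ ContDiff ℝ 1 (psi (n := n)) ∧
    (∀ v w : E n, fderiv ℝ phi v w = - (6 * (max 0 (1 - ‖v‖ ^ 2)) ^ 2 * ⟪v, w⟫)) ∧
    (∀ v w : E n, fderiv ℝ psi v w = - (phi v * ⟪v, w⟫)) ∧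
    (∀ v : E n, 0 ≤ phi v ∧ phi v ≤ 1) ∧ (∀ v : E n, 0 ≤ psi v ∧ psi v ≤ phi v / 8) ∧
    (∀ v : E n, 1 ≤ ‖v‖ → phi v = 0 ∧ psi v = 0) ∧ (∀ v : E n, ‖v‖ ≤ 1 / 2 → 27 / 64 ≤ phi v) ∧
    HasCompactSupport (phi (n := n)) ∧ HasCompactSupport (psi (n := n)) ∧
    tsupport (phi (n := n)) ⊆ closedBall 0 1 ∧ tsupport (psi (n := n)) ⊆ closedBall 0 1 ∧
    0 < ∫ v : E n, phi v

/-- Classical solutions are stationary. -/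
def T_STA : Prop := ∀ (n m : ℕ) (L : ℝ) (U : Set (E n)) (u : E n → E m), IsOpen U →
    HM n m L U u → ∀ X : E n → E n, ContDiff ℝ 1 X → HasCompactSupport X → tsupport X ⊆ U →
    ∫ x, statF (fderiv ℝ u x) (fderiv ℝ X x) = 0

/-- Weighted monotonicity formula. -/
def T_MON : Prop := ∀ (n m : ℕ) (L : ℝ) (u : E n → E m) (x : E n) (ρ : ℝ), 2 ≤ n →
    HM n m L (ball x ρ) u → MonotoneOn (theta u x) (Ioo 0 ρ)

/-- Mean value inequality with a term of order zero. -/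
def T_MVI : Prop := ∀ n : ℕ, ∃ C : ℝ, 0 < C ∧ ∀ (f : E n → ℝ) (x : E n) (r Λ : ℝ), 0 < r →
    ContDiffOn ℝ 2 f (ball x r) → (∀ y ∈ ball x r, 0 ≤ f y) → 0 ≤ Λ → Λ * r ^ 2 ≤ 16 →
    (∀ y ∈ ball x r, - (Λ * f y) ≤ lap f y) →
    ENNReal.ofReal (r ^ n * f x) ≤ ENNReal.ofReal C * ∫⁻ y in ball x r, ENNReal.ofReal (f y)

/-- Small weighted energy implies the pointwise bound. -/
def T_SCH : Prop := ∀ (n m : ℕ) (L : ℝ), 2 ≤ n → 0 ≤ L → ∃ c : ℝ, 0 < c ∧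
    ∀ (u : E n → E m) (x : E n) (r ρ : ℝ), 0 < r → 8 * r < ρ → HM n m L (ball x ρ) u →
    theta u x (8 * r) < c → ∀ y ∈ ball x r, r ^ 2 * en u y ≤ 1

/-- Local estimate of the Hessian. -/
def T_LHE : Prop := ∀ (n m : ℕ) (L : ℝ), 0 ≤ L → ∃ C : ℝ, 0 ≤ C ∧
    ∀ (u : E n → E m) (x : E n) (r : ℝ), 0 < r → HM n m L (ball x r) u →
    (∀ y ∈ ball x r, r ^ 2 * en u y ≤ 1) →
    ∫⁻ y in ball x (r / 2), ENNReal.ofReal (hsq u y) ≤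
      ENNReal.ofReal (C / r ^ 2) * ∫⁻ y in ball x r, ENNReal.ofReal (en u y)

/-- The scale function of a continuous density. -/
def T_REG : Prop := ∀ (n : ℕ) (e : E n → ℝ), ContinuousOn e (ball 0 2) → (∀ x, 0 ≤ e x) →
    ∃ R : E n → ℝ, LipschitzWith 1 R ∧ (∀ x, 0 ≤ R x ∧ R x ≤ 1 / 8) ∧
    (∀ x ∈ ball (0 : E n) 2, 0 < R x) ∧ (∀ x, ∀ y ∈ ball x (R x), R x ^ 2 * e y ≤ 1) ∧
    (∀ (x : E n) (r : ℝ), R x < r → r ≤ 1 / 8 → ∃ y ∈ ball x r, 1 < r ^ 2 * e y)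

/-- Averaging of local estimates at a variable scale. -/
def T_FUB : Prop := ∀ (n : ℕ) (C : ℝ), 0 ≤ C → ∃ C' : ℝ, 0 ≤ C' ∧
    ∀ (R : E n → ℝ) (h e : E n → ℝ≥0∞), Measurable h → Measurable e → LipschitzWith 1 R →
    (∀ x, 0 ≤ R x ∧ R x ≤ 1 / 8) → (∀ x ∈ ball (0 : E n) 2, 0 < R x) →
    (∀ x ∈ ball (0 : E n) (5 / 4), ∫⁻ y in ball x (R x / 4), h y ≤
      ENNReal.ofReal (C / R x ^ 2) * ∫⁻ y in ball x (R x / 2), e y) →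
    ∫⁻ x in ball (0 : E n) 1, ENNReal.ofReal (R x ^ 2) * h x ≤
      ENNReal.ofReal C' * ∫⁻ x in ball (0 : E n) (3 / 2), e x

/-- The set of points of small scale. -/
def T_DIS : Prop := ∀ (n m : ℕ) (L : ℝ), 2 ≤ n → 0 ≤ L → ∃ C : ℝ, 0 ≤ C ∧
    ∀ (u : E n → E m) (R : E n → ℝ), HM n m L (ball 0 2) u → Measurable R →
    (∀ (x : E n) (r : ℝ), R x < r → r ≤ 1 / 8 → ∃ y ∈ ball x r, 1 < r ^ 2 * en u y) →
    ∀ ρ : ℝ, 0 < ρ → ρ ≤ 1 / 8 → volume {x : E n | x ∈ ball (0 : E n) 1 ∧ R x < ρ} ≤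
      ENNReal.ofReal (C * ρ ^ 2) * ∫⁻ x in ball (0 : E n) 2, ENNReal.ofReal (en u x)

/-- Dyadic summation. -/
def T_DYA : Prop := ∃ C : ℝ, 0 ≤ C ∧ ∀ (X : Type) (_ : MeasurableSpace X) (μ : Measure X)
    (R : X → ℝ) (a I : ℝ) (q : ℝ → ℝ), 0 ≤ a → 0 ≤ I → Measurable R → (∀ x, 0 < R x) →
    (∀ ρ : ℝ, 0 < ρ → ρ ≤ 1 / 8 → μ {x | R x < ρ} ≤ ENNReal.ofReal (a * ρ ^ 2)) →
    AntitoneOn q (Ici 0) → (∀ s, 0 ≤ q s ∧ q s ≤ 1) →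
    ∫⁻ s in Ioi (1 : ℝ), ENNReal.ofReal (q s / s) ≤ ENNReal.ofReal I →
    ∫⁻ x in {x | R x < 1 / 8}, ENNReal.ofReal (q (1 / R x) / R x ^ 2) ∂μ ≤
      ENNReal.ofReal (C * a * I) ∧
    ∫⁻ x in {x | R x < 1 / 8}, ENNReal.ofReal (1 / R x) ∂μ ≤ ENNReal.ofReal (C * a)

/-- The last step. -/
def T_ALG : Prop := ∀ (n : ℕ) (C : ℝ), 0 ≤ C → ∃ K : ℝ, 0 ≤ K ∧
    ∀ (R h : E n → ℝ) (a I : ℝ) (g : ℝ → ℝ), 0 ≤ a → 0 ≤ I → Measurable R → Measurable h →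
    (∀ x, 0 ≤ h x) → (∀ x, R x ≤ 1 / 8) → (∀ x ∈ ball (0 : E n) 1, 0 < R x) →
    ∫⁻ x in ball (0 : E n) 1, ENNReal.ofReal (R x ^ 2 * h x ^ 2) ≤ ENNReal.ofReal (C * a) →
    (∀ ρ : ℝ, 0 < ρ → ρ ≤ 1 / 8 → volume {x : E n | x ∈ ball (0 : E n) 1 ∧ R x < ρ} ≤
      ENNReal.ofReal (C * a * ρ ^ 2)) →
    AntitoneOn g (Ici 0) → (∀ s, 0 ≤ g s ∧ g s ≤ 1) →
    ∫⁻ s in Ioi (1 : ℝ), ENNReal.ofReal (g s ^ 2 / s) ≤ ENNReal.ofReal I →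
    ∫⁻ x in ball (0 : E n) 1, ENNReal.ofReal (h x * g (h x)) ≤
      ENNReal.ofReal (K * (Real.sqrt a + a * Real.sqrt (1 + I)))

/-- The theorem: half of the logarithm. -/
def T_HLF : Prop := ∀ (m : ℕ) (N : Set (E m)) (A : E m → E m →L[ℝ] E m →L[ℝ] E m),
    IsCompact N → IsSFF N A → ∀ d : ℕ, ∃ K : ℝ, 0 ≤ K ∧ ∀ u : E (d + 2) → E m,
    ContDiffOn ℝ ∞ u (ball 0 2) → (∀ x ∈ ball (0 : E (d + 2)) 2, u x ∈ N) →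
    (∀ x ∈ ball (0 : E (d + 2)) 2, lap u x =
      - ∑ i : Fin (d + 2), A (u x) (fderiv ℝ u x (bv i)) (fderiv ℝ u x (bv i))) →
    ∀ (a I : ℝ) (g : ℝ → ℝ), 0 ≤ a → 0 ≤ I →
    ∫⁻ x in ball (0 : E (d + 2)) 2, ENNReal.ofReal (en u x) ≤ ENNReal.ofReal a →
    AntitoneOn g (Ici 0) → (∀ s, 0 ≤ g s ∧ g s ≤ 1) →
    ∫⁻ s in Ioi (1 : ℝ), ENNReal.ofReal (g s ^ 2 / s) ≤ ENNReal.ofReal I →
    ∫⁻ x in ball (0 : E (d + 2)) 1, ENNReal.ofReal (hessNorm u x * g (hessNorm u x)) ≤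
      ENNReal.ofReal (K * (Real.sqrt a + a * Real.sqrt (1 + I)))

end

end Pool.Agent.H87.SH
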