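import Pool.Agent.H87.SN.Stmt
import Pool.Agent.H87.SH.Targets

/-! Half of the logarithm for smooth harmonic maps (MP_2697e3_an): short forms of the definitions, used
in the statement of the result. -/

namespace Pool.Agent.H87.SH

open MeasureTheory Metric Set Filter Topology Pool.Agent.H87.SN
open scoped ContDiff RealInnerProductSpace ENNReal

noncomputable section

/-- The Laplacian. -/
def lapl {n m : ℕ} (u : E n → E m) (x : E n) : E m :=
  ∑ i : Fin n, pd (fun y => pd u y (bv i)) x (bv i)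

/-- The square `|∇u|²` of the Euclidean norm of the gradient. -/
def grsq {n m : ℕ} (u : E n → E m) (x : E n) : ℝ := ∑ i : Fin n, ‖pd u x (bv i)‖ ^ 2

/-- Smooth harmonic maps `u` of the ball of radius two into `N`: smooth, with values in `N`, and
`-Δu = A(u)(∇u, ∇u)`. -/
def SmoothHarm {n m : ℕ} (N : Set (E m)) (A : E m → Bil m) (u : E n → E m) : Prop :=
  ContDiffOn ℝ ∞ u (ball 0 2) ∧ ∀ x ∈ ball (0 : E n) 2, u x ∈ N ∧
    lapl u x = - ∑ i : Fin n, ap2 (A (u x)) (pd u x (bv i)) (pd u x (bv i))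

/-- The energy of `u` on the ball of radius two is at most `a`. -/
def EnergyLe {n m : ℕ} (u : E n → E m) (a : ℝ) : Prop :=
  0 ≤ a ∧ ∫⁻ x in ball (0 : E n) 2, ENNReal.ofReal (grsq u x) ≤ ENNReal.ofReal a

/-- The function `g` is nonincreasing on `[0, ∞)` with values in `[0, 1]`, and the integral of
`g(s)² / s` over `(1, ∞)` is at most `I`. -/
def Profile (g : ℝ → ℝ) (I : ℝ) : Prop :=
  AntitoneOn g (Ici 0) ∧ (∀ s, 0 ≤ g s ∧ g s ≤ 1) ∧ 0 ≤ I ∧
    ∫⁻ s in Ioi (1 : ℝ), ENNReal.ofReal (g s ^ 2 / s) ≤ ENNReal.ofReal I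

/-- The integral of `|∇²u| g(|∇²u|)` over the unit ball. -/
def hessProf {n m : ℕ} (g : ℝ → ℝ) (u : E n → E m) : ℝ≥0∞ :=
  ∫⁻ x in ball (0 : E n) 1, ENNReal.ofReal (hess u x * g (hess u x))

theorem hess_eq {n m : ℕ} (u : E n → E m) (x : E n) : hess u x = hessNorm u x := rfl

theorem lapl_eq {n m : ℕ} {u : E n → E m} {U : Set (E n)} (hU : IsOpen U)
    (hu : ContDiffOn ℝ ∞ u U) {x : E n} (hx : x ∈ U) : lapl u x = lap u x := by
  unfold lapl lap pd
  refine Finset.sum_congr rfl fun i _ => ?_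
  have h1 : ContDiffOn ℝ ∞ (fderiv ℝ u) U := hu.fderiv_of_isOpen hU (by norm_num)
  have h2 : DifferentiableAt ℝ (fderiv ℝ u) x :=
    (h1.differentiableOn (by norm_num)).differentiableAt (hU.mem_nhds hx)
  rw [fderiv_clm_apply h2 (differentiableAt_const _)]
  simp

end

end Pool.Agent.H87.SH
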