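import Pool.Agent.H87.SN.Done
import Pool.Agent.H87.SH.Stmt
import Pool.Agent.H87.SH.HLF
import Pool.Agent.H79.SH.ALG
import Pool.Agent.H27.SH.DIS
import Pool.Agent.H27.SH.DYA
import Pool.Agent.H35.SH.FUB
import Pool.Agent.H27.SH.LHE
import Pool.Agent.H27.SH.MON
import Pool.Agent.H13.SH.PHI
import Pool.Agent.H12.SH.REG
import Pool.Agent.H89.SH.SCH
import Pool.Agent.H1.SH.STA

/-! Collection of the finished rows of the board hlf (MP_2697e3_an). -/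

namespace Pool.Agent.H87.SH

open Pool.Agent.H87.SN

theorem f_PHI : T_PHI := Pool.Agent.H13.SH.pf_PHI
theorem f_STA : T_STA := Pool.Agent.H1.SH.pf_STA f_IBP
theorem f_MON : T_MON := Pool.Agent.H27.SH.pf_MON f_PHI f_STA
theorem g_SCH (hMVI : T_MVI) : T_SCH := Pool.Agent.H89.SH.pf_SCH f_PHI f_MON hMVI f_BO1
theorem f_LHE : T_LHE := Pool.Agent.H27.SH.pf_LHE f_CUT f_GRN f_BO1
theorem f_REG : T_REG := Pool.Agent.H12.SH.pf_REG
theorem f_FUB : T_FUB := Pool.Agent.H35.SH.pf_FUB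
theorem f_DYA : T_DYA := Pool.Agent.H27.SH.pf_DYA
theorem f_ALG : T_ALG := Pool.Agent.H79.SH.pf_ALG f_DYA
theorem g_HLF (hMVI : T_MVI) : T_HLF :=
  pf_HLF f_REG f_LHE f_FUB (Pool.Agent.H27.SH.pf_DIS f_PHI (g_SCH hMVI)) f_ALG f_GEO

end Pool.Agent.H87.SH
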