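import Pool.Agent.H87.SH.Done0
import Pool.Agent.H42.SH.MVI2

/-! Collection of the finished rows of the board hlf (MP_2697e3_an), second part. -/

namespace Pool.Agent.H87.SH

open Pool.Agent.H87.SN

theorem f_MVI : T_MVI := Pool.Agent.H42.SH.pf_MVI f_PHI f_GRN
theorem f_HLF : T_HLF := g_HLF f_MVI

end Pool.Agent.H87.SH
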